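import Pool.Agent.Lib.MP_4d5ce1_nt.BTrD

/-!
The bilinear strategy at the exceptional configurations.
-/

set_option autoImplicit false

open Finset

namespace Pool.Agent.Lib.FK60

open Pool.Agent.Lib.MP_4d5ce1_nt

/-- The exceptional configuration with the sets of blocks `G l`. -/
noncomputable def xc (M : ℕ) (G : Fin 3 → Finset ℕ) : Cfg where
  S := fun l b => if b ∈ G l then 1 / (M : ℝ) else 0
  J := fun _ => 0

/-- The tool for pairs at an exceptional configuration. -/
lemma good_side {E M : ℕ} (G : Fin 3 → Finset ℕ) (hM : 2 ≤ M) (hcard : ∀ l, (G l).card = M)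
    (hG : ∀ l, ∀ b ∈ G l, 1 ≤ b ∧ b + 1 < E) {ε : ℝ} (hε : 0 ≤ ε) (A : Fin 3 → ℕ → Bool)
    (T : ℕ → Bool) (k l₀ : Fin 3) (hl₀ : l₀ ≠ k) (hA₀ : ∀ b ∈ G l₀, A l₀ b = true)
    (hA₁ : ∀ l, l ≠ k → l ≠ l₀ → ∀ b ∈ G l, A l b = false) (t₀ : ℕ) (ht₀ : t₀ ∈ G k)
    (hT : T t₀ = true) :
    GoodSide E ε (xc M G) k A T ((2 * M - 1) / M + (4 * E + 2) * ε) := by
  classical
  intro g hg
  obtain ⟨hg1, -, -⟩ := hg
  have hGr : ∀ l, ∀ b ∈ G l, b ∈ range E := fun l b hb => mem_range.mpr (by
    have := (hG l b hb).2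
    omega)
  have hne : (G l₀).Nonempty := by
    rw [← Finset.card_pos, hcard]
    omega
  obtain ⟨b₀, hb₀, hmin⟩ := Finset.exists_min_image (G l₀) (fun b => g.S l₀ b) hne
  have hb1 := (hG l₀ b₀ hb₀).1
  have hbE := (hG l₀ b₀ hb₀).2
  have ht1 := (hG k t₀ ht₀).1
  have htE := (hG k t₀ ht₀).2
  obtain ⟨s, hs⟩ : ∃ s : ℝ, s = 1 / (M : ℝ) := ⟨_, rfl⟩
  have hM0 : (0 : ℝ) < M := by
    have : 0 < M := by omega
    exact_mod_cast this
  have hs0 : 0 < s := by rw [hs]; positivity
  have hME : M ≤ E := by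
    rw [← hcard l₀]
    calc (G l₀).card ≤ (range E).card := Finset.card_le_card (hGr l₀)
      _ = E := Finset.card_range E
  obtain ⟨t, ht⟩ : ∃ t : YT, t = ⟨b₀ + 1, fun l b => if l = l₀ ∧ b = b₀ then 2 else 0,
    fun b => decide (b = t₀)⟩ := ⟨_, rfl⟩
  have htn : t.n = b₀ + 1 := by rw [ht]
  have hto : ∀ l b, t.out l b = if l = l₀ ∧ b = b₀ then 2 else 0 := fun l b => by rw [ht]
  have htt : ∀ b, t.tp b = decide (b = t₀) := fun b => by rw [ht]
  have hp : ∀ l b, (xc M G).S l b = if b ∈ G l then s else 0 := fun l b => by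
    rw [hs]; rfl
  refine ⟨t, ⟨?_, ?_, ?_, ?_⟩, ?_⟩
  · rw [htn]; omega
  · rw [htn]; omega
  · intro l hl b hb hA
    rw [hto]
    by_cases h : l = l₀ ∧ b = b₀
    · rw [if_pos h]
      refine ⟨le_rfl, fun _ => ?_⟩
      rw [h.2, if_neg (by omega), htn]
    · rw [if_neg h]
      exact ⟨by omega, fun h' => absurd h' (by omega)⟩
  · intro b hb h
    rw [htt, decide_eq_true_eq] at h
    rw [h]
    exact hT
  · -- the cost
    have hgb : ∀ b ∈ G l₀, -ε ≤ g.S l₀ b := fun b hb =>
      (hg1 l₀ hl₀ b (hGr l₀ b hb) (hA₀ b hb)).1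
    have hg0 := hgb b₀ hb₀
    have c1 : ∑ l ∈ univ.filter (fun l => l ≠ k), ∑ b ∈ range E,
        (if A l b then (2 - (t.out l b : ℝ)) * ((xc M G).S l b - g.S l b) + g.S l b else 0) ≤
        ∑ l ∈ univ.filter (fun l => l ≠ k), ∑ b ∈ range E,
          (if l = l₀ ∧ b ∈ G l₀ then (if b = b₀ then g.S l₀ b₀ else 2 * s - g.S l₀ b₀) else 0) +
          3 * (E * ε) := by
      apply sum3E_le hε
      intro l hl b hb
      have hlk := (Finset.mem_filter.mp hl).2
      by_cases hA : A l b = true
      · rw [if_pos hA, hto, hp]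
        have hgS := (hg1 l hlk b hb hA).1
        by_cases hl : l = l₀ ∧ b ∈ G l₀
        · rw [if_pos hl]
          obtain ⟨rfl, hbG⟩ := hl
          rw [if_pos hbG]
          by_cases hbb : b = b₀
          · rw [if_pos hbb, if_pos ⟨rfl, hbb⟩, hbb]
            push_cast
            linarith
          · rw [if_neg hbb, if_neg (fun h => hbb h.2)]
            have := hmin b hbG
            push_cast
            linarith
        · rw [if_neg hl]
          have hbG : b ∉ G l := by
            intro hbG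
            by_cases hll : l = l₀
            · exact hl ⟨hll, hll ▸ hbG⟩
            · rw [hA₁ l hlk hll b hbG] at hA
              exact absurd hA (by decide)
          rw [if_neg hbG, if_neg (by
            rintro ⟨h1, h2⟩
            apply hbG
            rw [h1, h2]
            exact hb₀)]
          push_cast
          linarith
      · rw [if_neg hA]
        have : (0 : ℝ) ≤ (if l = l₀ ∧ b ∈ G l₀ then (if b = b₀ then g.S l₀ b₀ else
            2 * s - g.S l₀ b₀) else 0) := by
          rw [if_neg]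
          rintro ⟨h1, h2⟩
          apply hA
          rw [h1]
          exact hA₀ b h2
        linarith
    have c2 : ∑ l ∈ univ.filter (fun l => l ≠ k), ∑ b ∈ range E,
          (if l = l₀ ∧ b ∈ G l₀ then (if b = b₀ then g.S l₀ b₀ else 2 * s - g.S l₀ b₀) else 0) =
          g.S l₀ b₀ + (M - 1) * (2 * s - g.S l₀ b₀) := by
      rw [Finset.sum_eq_single l₀]
      · have e1 : ∑ b ∈ range E, (if l₀ = l₀ ∧ b ∈ G l₀ then
            (if b = b₀ then g.S l₀ b₀ else 2 * s - g.S l₀ b₀) else 0) =
            ∑ b ∈ G l₀, (if b = b₀ then g.S l₀ b₀ else 2 * s - g.S l₀ b₀) := by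
          simp only [true_and]
          rw [← Finset.sum_filter]
          apply Finset.sum_congr _ fun _ _ => rfl
          ext b
          rw [Finset.mem_filter]
          exact ⟨fun h => h.2, fun h => ⟨hGr l₀ b h, h⟩⟩
        rw [e1, ← Finset.add_sum_erase _ _ hb₀, if_pos rfl]
        have e2 : ∑ b ∈ (G l₀).erase b₀, (if b = b₀ then g.S l₀ b₀ else 2 * s - g.S l₀ b₀) =
            ∑ b ∈ (G l₀).erase b₀, (2 * s - g.S l₀ b₀) := by
          apply Finset.sum_congr rfl
          intro b hb
          rw [if_neg (Finset.ne_of_mem_erase hb)]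
        rw [e2, Finset.sum_const, Finset.card_erase_of_mem hb₀, hcard, nsmul_eq_mul]
        rw [Nat.cast_sub (by omega)]
        push_cast
        ring
      · intro l _ hl
        apply Finset.sum_eq_zero
        intro b _
        rw [if_neg (fun h => hl h.1)]
      · intro h
        exact absurd (show l₀ ∈ univ.filter (fun l => l ≠ k) from
          Finset.mem_filter.mpr ⟨Finset.mem_univ _, hl₀⟩) h
    have c3 : ∑ b ∈ range E, (if t.tp b then (xc M G).S k b else 0) = s := by
      rw [Finset.sum_eq_single t₀]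
      · rw [htt, hp, if_pos ht₀]
        simp
      · intro b _ hb
        rw [htt]
        simp [hb]
      · intro h
        exact absurd (hGr k t₀ ht₀) h
    have c4 : ∑ l ∈ univ.filter (fun l => l ≠ k), ∑ b ∈ range E,
        (if A l b then (t.out l b : ℝ) * ((xc M G).I E l b - g.I E l b) else 0) =
        2 * ((b₀ + 1) * (s - g.S l₀ b₀)) := by
      rw [Finset.sum_eq_single l₀]
      · rw [Finset.sum_eq_single b₀]
        · rw [if_pos (hA₀ b₀ hb₀), hto, if_pos ⟨rfl, rfl⟩]
          unfold Cfg.I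
          rw [if_neg (by omega), if_neg (by omega), hp, if_pos hb₀]
          push_cast
          ring
        · intro b _ hb
          have : t.out l₀ b = 0 := by rw [hto, if_neg (fun h => hb h.2)]
          rw [this]
          simp
        · intro h
          exact absurd (hGr l₀ b₀ hb₀) h
      · intro l _ hl
        apply Finset.sum_eq_zero
        intro b _
        have : t.out l b = 0 := by rw [hto, if_neg (fun h => hl h.1)]
        rw [this]
        simp
      · intro h
        exact absurd (show l₀ ∈ univ.filter (fun l => l ≠ k) from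
          Finset.mem_filter.mpr ⟨Finset.mem_univ _, hl₀⟩) h
    have c5 : ∑ b ∈ range E, (if t.tp b then (xc M G).I E k b else 0) = (t₀ + 1) * s := by
      rw [Finset.sum_eq_single t₀]
      · have e3 : (xc M G).I E k t₀ = (t₀ + 1) * s := by
          unfold Cfg.I
          rw [if_neg (by omega), hp, if_pos ht₀]
        rw [htt, e3]
        simp
      · intro b _ hb
        rw [htt]
        simp [hb]
      · intro h
        exact absurd (hGr k t₀ ht₀) h
    unfold YT.cost
    rw [c3, c4, c5, htn]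
    have c6 : 2 * (((b₀ : ℝ) + 1) * (s - g.S l₀ b₀)) / ((b₀ + 1 : ℕ) : ℝ) =
        2 * (s - g.S l₀ b₀) := by
      push_cast
      have : (b₀ : ℝ) + 1 ≠ 0 := by positivity
      field_simp
    rw [c6]
    have c7 : max 0 (2 * (s - g.S l₀ b₀) - ((t₀ : ℝ) + 1) * s) ≤ 2 * ε := by
      apply max_le (by linarith)
      have : (1 : ℝ) ≤ t₀ := by exact_mod_cast ht1
      nlinarith
    have c8 : ((M : ℝ) - 2) * (-ε) ≤ (M - 2) * g.S l₀ b₀ := by
      apply mul_le_mul_of_nonneg_left hg0
      have : (2 : ℝ) ≤ M := by exact_mod_cast hM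
      linarith
    have c9 : (2 * (M : ℝ) - 1) / M = (2 * M - 1) * s := by rw [hs]; ring
    have c10 : (M : ℝ) * ε ≤ E * ε := by
      apply mul_le_mul_of_nonneg_right _ hε
      exact_mod_cast hME
    rw [c9]
    linarith
end Pool.Agent.Lib.FK60
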