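import Pool.Agent.Lib.FK60.Defs

section

/-!
The exact case analysis: an admissible configuration has a tool of cost less than `2`, or it is
exceptional.
-/

set_option autoImplicit false

open Finset

namespace Pool.Agent.Lib.FK60

variable {E : ℕ}

/-- Spread bound. -/
lemma spread (f : Fin (E + 1) → ℝ) (h0 : ∀ i, 0 ≤ f i) (hf0 : f 0 = 0) (μ K : ℝ) (m : ℕ)
    (hμ0 : 0 ≤ μ) (hμ : ∀ i, f i ≤ μ) (hK : ∑ i : Fin (E + 1), ((i : ℕ) : ℝ) * f i ≤ K) :
    ∑ i, f i ≤ m * μ + K / (m + 1) := by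
  have h1 : ∀ i : Fin (E + 1), f i ≤ (if 1 ≤ (i : ℕ) ∧ (i : ℕ) ≤ m then μ else 0) +
      ((i : ℕ) : ℝ) * f i / (m + 1) := by
    intro i
    have hm : (0 : ℝ) < (m : ℝ) + 1 := by positivity
    have h2 : 0 ≤ ((i : ℕ) : ℝ) * f i / (m + 1) :=
      div_nonneg (mul_nonneg (Nat.cast_nonneg _) (h0 i)) hm.le
    split_ifs with h
    · linarith [hμ i]
    · rw [zero_add]
      by_cases hi : (i : ℕ) = 0
      · have : i = 0 := Fin.ext hi
        rw [this, hf0]
        simp
      · have hmi : m + 1 ≤ (i : ℕ) := by omega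
        rw [le_div_iff₀ hm]
        have : ((m : ℝ) + 1) ≤ ((i : ℕ) : ℝ) := by exact_mod_cast hmi
        nlinarith [h0 i]
  refine (Finset.sum_le_sum fun i _ => h1 i).trans ?_
  rw [Finset.sum_add_distrib, ← Finset.sum_div]
  apply add_le_add
  · rw [← Finset.sum_filter, Finset.sum_const, nsmul_eq_mul]
    apply mul_le_mul_of_nonneg_right _ hμ0
    have h3 : (univ.filter fun i : Fin (E + 1) => 1 ≤ (i : ℕ) ∧ (i : ℕ) ≤ m).card ≤ m := by
      have h4 : ((univ.filter fun i : Fin (E + 1) => 1 ≤ (i : ℕ) ∧ (i : ℕ) ≤ m).image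
          fun i : Fin (E + 1) => (i : ℕ)) ⊆ Finset.Icc 1 m := by
        intro x hx
        rw [Finset.mem_image] at hx
        obtain ⟨i, hi, rfl⟩ := hx
        rw [Finset.mem_filter] at hi
        exact Finset.mem_Icc.mpr hi.2
      have h5 := Finset.card_le_card h4
      rw [Finset.card_image_of_injective _ Fin.val_injective, Nat.card_Icc] at h5
      omega
    exact_mod_cast h3
  · apply div_le_div_of_nonneg_right hK
    positivity

/-- The exact case analysis. -/
theorem exact_cases {κ K : ℝ} (hκ : 1 < κ) (hE : 16 * K ^ 2 + 4 ≤ E) (p : BC E)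
    (hp : p ∈ Adm E κ K) : (∃ t : Tool E, t.ok ∧ t.cost p < 2) ∨ Exc E p := by
  classical
  by_contra hcon
  rw [not_or] at hcon
  obtain ⟨hno, hexc⟩ := hcon
  push Not at hno
  obtain ⟨hS0, hSz, hJ, hJE, hy0, hk, hsum, hκk, hkK⟩ := hp
  have hK1 : 1 < K := by linarith
  have hE20 : (20 : ℝ) ≤ E := by nlinarith
  have hE0 : 0 < E := by
    have : (0 : ℝ) < E := by linarith
    exact_mod_cast this
  have hE2 : 2 ≤ E := by
    have : (2 : ℝ) ≤ E := by linarith
    exact_mod_cast this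
  have hER : (0 : ℝ) < E := by linarith
  obtain ⟨S, hS⟩ : ∃ S : Fin 3 → Fin (E + 1) → ℝ, S = fun l i => p.S (l, i) := ⟨_, rfl⟩
  obtain ⟨J, hJdef⟩ : ∃ J : Fin 3 → Fin (E + 1) → ℝ, J = fun l i => p.J (l, i) := ⟨_, rfl⟩
  have hSa : ∀ a, p.S a = S a.1 a.2 := fun a => by rw [hS]
  have hJa : ∀ a, p.J a = J a.1 a.2 := fun a => by rw [hJdef]
  have S0 : ∀ l i, 0 ≤ S l i := fun l i => by rw [hS]; exact hS0 _
  have Sz : ∀ l, S l 0 = 0 := fun l => by rw [hS]; exact hSz l
  have Jeq : ∀ l, ∀ i : Fin (E + 1), (i : ℕ) < E → J l i = (i : ℝ) * S l i := fun l i hi => by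
    rw [hS, hJdef]; exact hJ l i hi
  have JE : ∀ l, (E : ℝ) * S l (Fin.last E) ≤ J l (Fin.last E) := fun l => by
    rw [hS, hJdef]; exact hJE l
  have J0 : ∀ l i, 0 ≤ J l i := by
    intro l i
    by_cases hi : (i : ℕ) < E
    · rw [Jeq l i hi]; exact mul_nonneg (by positivity) (S0 l i)
    · have : i = Fin.last E := by
        apply Fin.ext
        have := i.2
        simp only [Fin.val_last]
        omega
      rw [this]
      exact (mul_nonneg hER.le (S0 l _)).trans (JE l)
  have hkS : ∀ l, ∑ i, J l i + p.y l = p.k := fun l => by rw [hJdef]; exact hk l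
  have hJle : ∀ l i, J l i ≤ p.k := by
    intro l i
    have h1 := Finset.single_le_sum (f := J l) (fun i _ => J0 l i) (Finset.mem_univ i)
    have := hkS l
    have := hy0 l
    linarith
  have hmulJ : ∀ l, ∀ i : Fin (E + 1), ((i : ℕ) : ℝ) * S l i ≤ J l i := by
    intro l i
    by_cases hi : (i : ℕ) < E
    · rw [Jeq l i hi]
    · have : i = Fin.last E := by
        apply Fin.ext
        have := i.2
        simp only [Fin.val_last]
        omega
      rw [this, Fin.val_last]
      exact JE l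
  -- radicals
  have hQ : ∀ k : Fin 3, ∑ a ∈ (univ.filter fun a : Fin 3 × Fin (E + 1) => a.1 ≠ k), p.S a =
      ∑ l ∈ univ.filter (fun l => l ≠ k), ∑ i, S l i := by
    intro k
    have e : (univ.filter fun a : Fin 3 × Fin (E + 1) => a.1 ≠ k) =
        (univ.filter fun l : Fin 3 => l ≠ k) ×ˢ (univ : Finset (Fin (E + 1))) := by
      ext a
      simp
    rw [e, Finset.sum_product]
    refine Finset.sum_congr rfl fun l _ => Finset.sum_congr rfl fun i _ => ?_
    rw [hSa]
  have hQ2 : ∀ k : Fin 3, 2 ≤ ∑ a ∈ (univ.filter fun a : Fin 3 × Fin (E + 1) => a.1 ≠ k), p.S a := by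
    intro k
    have h1 := hno ⟨k, ⟨0, hE0⟩, ∅, ∅⟩ (by intro a ha; simp at ha)
    unfold Tool.cost at h1
    simp only [Finset.sdiff_empty, Finset.sum_empty, add_zero, zero_div, zero_sub, sub_zero] at h1
    have h2 : max 0 (0 - p.y k) = 0 := max_eq_left (by linarith [hy0 k])
    have h3 : max 0 (-p.y k) = 0 := max_eq_left (by linarith [hy0 k])
    first
      | rw [h3, add_zero] at h1; exact h1
      | rw [h2, add_zero] at h1; exact h1
  have hfil : ∀ k : Fin 3, ∑ l ∈ univ.filter (fun l => l ≠ k), ∑ i, S l i =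
      ∑ l, ∑ i, S l i - ∑ i, S k i := by
    intro k
    rw [Finset.filter_ne', Finset.sum_erase_eq_sub (Finset.mem_univ k)]
  have htot : ∑ l, ∑ i, S l i ≤ 3 := by
    have : ∑ l, ∑ i, S l i = ∑ a, p.S a := by
      rw [Fintype.sum_prod_type]
      refine Finset.sum_congr rfl fun l _ => Finset.sum_congr rfl fun i _ => ?_
      rw [hSa]
    linarith
  have hR1 : ∀ l, ∑ i, S l i = 1 := by
    have h1 : ∀ l, ∑ i, S l i ≤ 1 := by
      intro l
      have := hQ2 l
      rw [hQ, hfil] at this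
      linarith
    have h2 := hQ2 0
    have h3 := hQ2 1
    have h4 := hQ2 2
    rw [hQ, hfil, Fin.sum_univ_three] at h2 h3 h4
    have g0 := h1 0
    have g1 := h1 1
    have g2 := h1 2
    intro l
    fin_cases l
    · change ∑ i, S 0 i = 1
      linarith
    · change ∑ i, S 1 i = 1
      linarith
    · change ∑ i, S 2 i = 1
      linarith
  have hQe : ∀ k : Fin 3, ∑ a ∈ (univ.filter fun a : Fin 3 × Fin (E + 1) => a.1 ≠ k), p.S a = 2 := by
    intro k
    rw [hQ, hfil, Fin.sum_univ_three, hR1, hR1, hR1, hR1]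
    norm_num
  -- the general alternative
  have gen : ∀ t : Tool E, t.ok → ∑ a ∈ t.A, S a.1 a.2 ≤ ∑ i ∈ t.T, S t.k i ∨
      ∑ a ∈ t.A, S a.1 a.2 - ∑ i ∈ t.T, S t.k i ≤
        (∑ a ∈ t.A, J a.1 a.2) / (t.n : ℝ) - ∑ i ∈ t.T, J t.k i - p.y t.k := by
    intro t ht
    have h1 := hno t ht
    unfold Tool.cost at h1
    have hsub : t.A ⊆ univ.filter fun a : Fin 3 × Fin (E + 1) => a.1 ≠ t.k := by
      intro a ha
      rw [Finset.mem_filter]
      exact ⟨Finset.mem_univ _, (ht a ha).1⟩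
    have h2 := Finset.sum_sdiff (f := p.S) hsub
    rw [hQe] at h2
    have e1 : ∑ a ∈ t.A, p.S a = ∑ a ∈ t.A, S a.1 a.2 :=
      Finset.sum_congr rfl fun a _ => hSa a
    have e2 : ∑ i ∈ t.T, p.S (t.k, i) = ∑ i ∈ t.T, S t.k i :=
      Finset.sum_congr rfl fun i _ => hSa _
    have e3 : ∑ a ∈ t.A, p.J a = ∑ a ∈ t.A, J a.1 a.2 :=
      Finset.sum_congr rfl fun a _ => hJa a
    have e4 : ∑ i ∈ t.T, p.J (t.k, i) = ∑ i ∈ t.T, J t.k i :=
      Finset.sum_congr rfl fun i _ => hJa _
    rw [e1] at h2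
    rw [e2, e3, e4] at h1
    rcases le_total ((∑ a ∈ t.A, J a.1 a.2) / (t.n : ℝ) - ∑ i ∈ t.T, J t.k i - p.y t.k) 0
      with h3 | h3
    · left
      rw [max_eq_left h3] at h1
      linarith
    · right
      rw [max_eq_right h3] at h1
      linarith
  -- one block left out, one block fixed
  have T1 : ∀ l k : Fin 3, l ≠ k → ∀ i : Fin (E + 1), 1 ≤ (i : ℕ) → (i : ℕ) < E →
      ∀ j : Fin (E + 1), S l i ≤ S k j ∨ J k j + p.y k ≤ S k j := by
    intro l k hlk i hi1 hiE j
    have hn : (⟨k, ⟨(i : ℕ) - 1, by omega⟩, {(l, i)}, {j}⟩ : Tool E).n = (i : ℕ) := by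
      unfold Tool.n
      simp only
      omega
    have h1 := gen ⟨k, ⟨(i : ℕ) - 1, by omega⟩, {(l, i)}, {j}⟩ (by
      intro a ha
      rw [hn]
      simp only [Finset.mem_singleton] at ha
      subst ha
      exact ⟨hlk, hiE, dvd_rfl⟩)
    rw [hn] at h1
    simp only [Finset.sum_singleton] at h1
    have hi0 : ((i : ℕ) : ℝ) ≠ 0 := by
      have : (i : ℕ) ≠ 0 := by omega
      exact_mod_cast this
    have e : J l i / ((i : ℕ) : ℝ) = S l i := by
      rw [Jeq l i hiE]
      field_simp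
    rw [e] at h1
    rcases h1 with h1 | h1
    · exact Or.inl h1
    · right; linarith
  have T0 : ∀ l k : Fin 3, l ≠ k → ∀ i : Fin (E + 1), 1 ≤ (i : ℕ) → (i : ℕ) < E →
      S l i ≤ 0 ∨ p.y k ≤ 0 := by
    intro l k hlk i hi1 hiE
    have hn : (⟨k, ⟨(i : ℕ) - 1, by omega⟩, {(l, i)}, ∅⟩ : Tool E).n = (i : ℕ) := by
      unfold Tool.n
      simp only
      omega
    have h1 := gen ⟨k, ⟨(i : ℕ) - 1, by omega⟩, {(l, i)}, ∅⟩ (by
      intro a ha
      rw [hn]
      simp only [Finset.mem_singleton] at ha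
      subst ha
      exact ⟨hlk, hiE, dvd_rfl⟩)
    rw [hn] at h1
    simp only [Finset.sum_singleton, Finset.sum_empty] at h1
    have hi0 : ((i : ℕ) : ℝ) ≠ 0 := by
      have : (i : ℕ) ≠ 0 := by omega
      exact_mod_cast this
    have e : J l i / ((i : ℕ) : ℝ) = S l i := by
      rw [Jeq l i hiE]
      field_simp
    rw [e] at h1
    rcases h1 with h1 | h1
    · exact Or.inl h1
    · right; linarith
  -- two blocks of the same exponent
  have T2 : ∀ l l' k : Fin 3, l ≠ l' → l ≠ k → l' ≠ k → ∀ i : Fin (E + 1), 1 ≤ (i : ℕ) →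
      (i : ℕ) < E → ∀ j : Fin (E + 1), S l i + S l' i ≤ S k j ∨ J k j + p.y k ≤ S k j := by
    intro l l' k hll hlk hlk' i hi1 hiE j
    have hn : (⟨k, ⟨(i : ℕ) - 1, by omega⟩, {(l, i), (l', i)}, {j}⟩ : Tool E).n = (i : ℕ) := by
      unfold Tool.n
      simp only
      omega
    have hne : ((l, i) : Fin 3 × Fin (E + 1)) ≠ (l', i) := by
      intro h; exact hll (congrArg Prod.fst h)
    have h1 := gen ⟨k, ⟨(i : ℕ) - 1, by omega⟩, {(l, i), (l', i)}, {j}⟩ (by
      intro a ha
      rw [hn]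
      simp only [Finset.mem_insert, Finset.mem_singleton] at ha
      rcases ha with rfl | rfl
      · exact ⟨hlk, hiE, dvd_rfl⟩
      · exact ⟨hlk', hiE, dvd_rfl⟩)
    rw [hn] at h1
    simp only [Finset.sum_singleton, Finset.sum_pair hne] at h1
    have hi0 : ((i : ℕ) : ℝ) ≠ 0 := by
      have : (i : ℕ) ≠ 0 := by omega
      exact_mod_cast this
    have e : (J l i + J l' i) / ((i : ℕ) : ℝ) = S l i + S l' i := by
      rw [Jeq l i hiE, Jeq l' i hiE]
      field_simp
    rw [e] at h1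
    rcases h1 with h1 | h1
    · exact Or.inl h1
    · right; linarith
  -- a block of exponent one and a block of another form
  have T4 : ∀ l l' k : Fin 3, l ≠ l' → l ≠ k → l' ≠ k → ∀ o : Fin (E + 1), (o : ℕ) = 1 →
      ∀ i : Fin (E + 1), (i : ℕ) < E → ∀ j : Fin (E + 1), S l o + S l' i ≤ S k j ∨
      S l o + S l' i - S k j ≤ S l o + J l' i - J k j - p.y k := by
    intro l l' k hll hlk hlk' o ho i hiE j
    have hn : (⟨k, ⟨0, hE0⟩, {(l, o), (l', i)}, {j}⟩ : Tool E).n = 1 := rfl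
    have hne : ((l, o) : Fin 3 × Fin (E + 1)) ≠ (l', i) := by
      intro h; exact hll (congrArg Prod.fst h)
    have h1 := gen ⟨k, ⟨0, hE0⟩, {(l, o), (l', i)}, {j}⟩ (by
      intro a ha
      rw [hn]
      simp only [Finset.mem_insert, Finset.mem_singleton] at ha
      rcases ha with rfl | rfl
      · exact ⟨hlk, by simp only [ho]; omega, one_dvd _⟩
      · exact ⟨hlk', hiE, one_dvd _⟩)
    rw [hn] at h1
    simp only [Finset.sum_singleton, Finset.sum_pair hne] at h1
    have e : J l o = S l o := by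
      rw [Jeq l o (by omega), ho]; simp
    rw [e, Nat.cast_one, div_one] at h1
    exact h1
  -- an auxiliary contradiction : small blocks are impossible
  have hsmall : ∀ l, ∀ μ : ℝ, 0 ≤ μ → μ ≤ K / E → (∀ i : Fin (E + 1), S l i ≤ μ) → False := by
    intro l μ hμ0 hμ hle
    have hK0 : 0 < K := by linarith
    obtain ⟨m, hm⟩ : ∃ m : ℕ, m = ⌈2 * K⌉₊ := ⟨_, rfl⟩
    have hm1 : 2 * K ≤ m := by rw [hm]; exact Nat.le_ceil _
    have hm2 : (m : ℝ) < 2 * K + 1 := by rw [hm]; exact Nat.ceil_lt_add_one (by linarith)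
    have h1 := spread (S l) (S0 l) (Sz l) μ K m hμ0 hle (by
      refine (Finset.sum_le_sum fun i _ => hmulJ l i).trans ?_
      have := hkS l
      have := hy0 l
      linarith)
    rw [hR1] at h1
    have h2 : K / (m + 1) < 1 / 2 := by
      rw [div_lt_div_iff₀ (by positivity) (by norm_num)]
      linarith
    have h3 : (m : ℝ) * μ ≤ 1 / 2 := by
      calc (m : ℝ) * μ ≤ (2 * K + 1) * (K / E) := by gcongr
        _ ≤ 1 / 2 := by
          rw [mul_div_assoc', div_le_div_iff₀ hER (by norm_num)]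
          nlinarith
    linarith
  have hSlast : ∀ l, S l (Fin.last E) ≤ K / E := by
    intro l
    rw [le_div_iff₀ hER, mul_comm]
    exact (JE l).trans ((hJle l _).trans hkK)
  have hKE0 : 0 ≤ K / E := by positivity
  -- index at infinity
  have hyz : ∀ k, p.y k = 0 := by
    intro k
    by_contra hne
    have hpos : 0 < p.y k := lt_of_le_of_ne (hy0 k) (Ne.symm hne)
    obtain ⟨l, hl⟩ : ∃ l : Fin 3, l ≠ k := by
      rcases eq_or_ne k 0 with h | h
      · exact ⟨1, by rw [h]; decide⟩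
      · exact ⟨0, h.symm⟩
    apply hsmall l (K / E) hKE0 le_rfl
    intro i
    by_cases hi : (i : ℕ) < E
    · by_cases hi1 : 1 ≤ (i : ℕ)
      · rcases T0 l k hl i hi1 hi with h1 | h1
        · exact h1.trans hKE0
        · exact absurd h1 (not_le.mpr hpos)
      · have : i = 0 := Fin.ext (by simp only [Fin.val_zero]; omega)
        rw [this, Sz]; exact hKE0
    · have : i = Fin.last E := by
        apply Fin.ext
        have := i.2
        simp only [Fin.val_last]
        omega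
      rw [this]; exact hSlast l
  -- the rest blocks
  have hJz : ∀ k, J k (Fin.last E) = 0 := by
    intro k
    by_contra hne
    have hpos : 0 < J k (Fin.last E) := lt_of_le_of_ne (J0 k _) (Ne.symm hne)
    obtain ⟨l, hl⟩ : ∃ l : Fin 3, l ≠ k := by
      rcases eq_or_ne k 0 with h | h
      · exact ⟨1, by rw [h]; decide⟩
      · exact ⟨0, h.symm⟩
    have hlt : S k (Fin.last E) < J k (Fin.last E) := by
      rcases (S0 k (Fin.last E)).eq_or_lt with h1 | h1
      · rw [← h1]; exact hpos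
      · have := JE k
        nlinarith
    apply hsmall l (K / E) hKE0 le_rfl
    intro i
    by_cases hi : (i : ℕ) < E
    · by_cases hi1 : 1 ≤ (i : ℕ)
      · rcases T1 l k hl i hi1 hi (Fin.last E) with h1 | h1
        · exact h1.trans (hSlast k)
        · rw [hyz, add_zero] at h1
          exact absurd h1 (not_le.mpr hlt)
      · have : i = 0 := Fin.ext (by simp only [Fin.val_zero]; omega)
        rw [this, Sz]; exact hKE0
    · have : i = Fin.last E := by
        apply Fin.ext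
        have := i.2
        simp only [Fin.val_last]
        omega
      rw [this]; exact hSlast l
  have hSz' : ∀ k, S k (Fin.last E) = 0 := by
    intro k
    have h1 := JE k
    rw [hJz] at h1
    have h2 := S0 k (Fin.last E)
    nlinarith
  have hlastS : ∀ l, ∀ i : Fin (E + 1), S l i ≠ 0 → 1 ≤ (i : ℕ) ∧ (i : ℕ) < E := by
    intro l i hi
    constructor
    · by_contra h0
      apply hi
      have : i = 0 := Fin.ext (by simp only [Fin.val_zero]; omega)
      rw [this, Sz]
    · by_contra h0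
      apply hi
      have : i = Fin.last E := by
        apply Fin.ext
        have := i.2
        simp only [Fin.val_last]
        omega
      rw [this, hSz']
  have hJall : ∀ l, ∀ i : Fin (E + 1), J l i = ((i : ℕ) : ℝ) * S l i := by
    intro l i
    by_cases hi : (i : ℕ) < E
    · exact Jeq l i hi
    · have : i = Fin.last E := by
        apply Fin.ext
        have := i.2
        simp only [Fin.val_last]
        omega
      rw [this, hJz, hSz', mul_zero]
  have hki : ∀ l, ∑ i : Fin (E + 1), ((i : ℕ) : ℝ) * S l i = p.k := by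
    intro l
    rw [← hkS l, hyz, add_zero]
    exact Finset.sum_congr rfl fun i _ => (hJall l i).symm
  -- every form has a block of exponent at least two
  have hex : ∀ l, ∃ j : Fin (E + 1), 2 ≤ (j : ℕ) ∧ 0 < S l j := by
    intro l
    by_contra hcon
    push Not at hcon
    have h1 : p.k ≤ 1 := by
      rw [← hki l, ← hR1 l]
      apply Finset.sum_le_sum
      intro i _
      by_cases hi : 2 ≤ (i : ℕ)
      · have : S l i = 0 := le_antisymm (hcon i hi) (S0 l i)
        rw [this, mul_zero]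
      · have h2 : ((i : ℕ) : ℝ) ≤ 1 := by
          have : (i : ℕ) ≤ 1 := by omega
          exact_mod_cast this
        nlinarith [S0 l i]
    linarith
  -- comparison of blocks
  have hcmp : ∀ l k : Fin 3, l ≠ k → ∀ i j : Fin (E + 1), 2 ≤ (j : ℕ) → 0 < S k j →
      S l i ≤ S k j := by
    intro l k hlk i j hj hSj
    by_cases hi : S l i = 0
    · rw [hi]; exact hSj.le
    obtain ⟨hi1, hiE⟩ := hlastS l i hi
    rcases T1 l k hlk i hi1 hiE j with h1 | h1
    · exact h1
    · exfalso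
      rw [hyz, add_zero, hJall] at h1
      have h2 : (2 : ℝ) ≤ ((j : ℕ) : ℝ) := by exact_mod_cast hj
      nlinarith
  obtain ⟨j₀, hj₀, hs₀⟩ := hex 0
  obtain ⟨j₁, hj₁, hs₁⟩ := hex 1
  obtain ⟨j₂, hj₂, hs₂⟩ := hex 2
  obtain ⟨s, hs⟩ : ∃ s, s = S 0 j₀ := ⟨_, rfl⟩
  have hspos : 0 < s := by rw [hs]; exact hs₀
  have e1 : S 1 j₁ = s := by
    rw [hs]
    exact le_antisymm (hcmp 1 0 (by decide) _ _ hj₀ hs₀) (hcmp 0 1 (by decide) _ _ hj₁ hs₁)
  have e2 : S 2 j₂ = s := by
    rw [hs]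
    exact le_antisymm (hcmp 2 0 (by decide) _ _ hj₀ hs₀) (hcmp 0 2 (by decide) _ _ hj₂ hs₂)
  have hall : ∀ l, ∀ i : Fin (E + 1), 2 ≤ (i : ℕ) → S l i ≠ 0 → S l i = s := by
    intro l i hi hne
    have hpos : 0 < S l i := lt_of_le_of_ne (S0 l i) (Ne.symm hne)
    fin_cases l
    · change S 0 i = s
      change 0 < S 0 i at hpos
      rw [← e1]
      exact le_antisymm (hcmp 0 1 (by decide) _ _ hj₁ hs₁) (hcmp 1 0 (by decide) _ _ hi hpos)
    · change S 1 i = s
      change 0 < S 1 i at hpos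
      rw [hs]
      exact le_antisymm (hcmp 1 0 (by decide) _ _ hj₀ hs₀) (hcmp 0 1 (by decide) _ _ hi hpos)
    · change S 2 i = s
      change 0 < S 2 i at hpos
      rw [hs]
      exact le_antisymm (hcmp 2 0 (by decide) _ _ hj₀ hs₀) (hcmp 0 2 (by decide) _ _ hi hpos)
  have hjs : ∀ k : Fin 3, ∃ j : Fin (E + 1), 2 ≤ (j : ℕ) ∧ S k j = s := by
    intro k
    obtain ⟨j, hj, hSj⟩ := hex k
    exact ⟨j, hj, hall k j hj hSj.ne'⟩
  -- no common exponents
  have hdisj : ∀ l l' k : Fin 3, l ≠ l' → l ≠ k → l' ≠ k → ∀ i : Fin (E + 1),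
      2 ≤ (i : ℕ) → S l i ≠ 0 → S l' i ≠ 0 → False := by
    intro l l' k hll hlk hlk' i hi h1 h2
    obtain ⟨j, hj, hSj⟩ := hjs k
    obtain ⟨hi1, hiE⟩ := hlastS l i h1
    have e3 := hall l i hi h1
    have e4 := hall l' i hi h2
    rcases T2 l l' k hll hlk hlk' i hi1 hiE j with h3 | h3
    · rw [e3, e4, hSj] at h3
      linarith
    · rw [hyz, add_zero, hJall, hSj] at h3
      have h2 : (2 : ℝ) ≤ ((j : ℕ) : ℝ) := by exact_mod_cast hj
      nlinarith
  -- no blocks of exponent one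
  have hone : ∀ l, ∀ o : Fin (E + 1), (o : ℕ) = 1 → S l o = 0 := by
    intro l o ho
    by_contra hne
    have hpos : 0 < S l o := lt_of_le_of_ne (S0 l o) (Ne.symm hne)
    obtain ⟨l', k, hll, hlk, hlk'⟩ : ∃ l' k : Fin 3, l ≠ l' ∧ l ≠ k ∧ l' ≠ k := by
      fin_cases l
      · exact ⟨1, 2, by decide, by decide, by decide⟩
      · exact ⟨0, 2, by decide, by decide, by decide⟩
      · exact ⟨0, 1, by decide, by decide, by decide⟩
    obtain ⟨i, hi, hSi⟩ := hjs l'
    obtain ⟨j, hj, hSj⟩ := hjs k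
    have hi' := hlastS l' i (by rw [hSi]; exact hspos.ne')
    have hj' := hlastS k j (by rw [hSj]; exact hspos.ne')
    have h1 : (j : ℕ) ≤ (i : ℕ) := by
      rcases T4 l l' k hll hlk hlk' o ho i hi'.2 j with h3 | h3
      · rw [hSi, hSj] at h3
        linarith
      · rw [hyz, hJall l', hJall k, hSi, hSj] at h3
        have h4 : ((j : ℕ) : ℝ) * s ≤ ((i : ℕ) : ℝ) * s := by linarith
        have h5 := le_of_mul_le_mul_right h4 hspos
        exact_mod_cast h5
    have h2 : (i : ℕ) ≤ (j : ℕ) := by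
      rcases T4 l k l' hlk hll hlk'.symm o ho j hj'.2 i with h3 | h3
      · rw [hSi, hSj] at h3
        linarith
      · rw [hyz, hJall l', hJall k, hSi, hSj] at h3
        have h4 : ((i : ℕ) : ℝ) * s ≤ ((j : ℕ) : ℝ) * s := by linarith
        have h5 := le_of_mul_le_mul_right h4 hspos
        exact_mod_cast h5
    have hij : i = j := Fin.ext (le_antisymm h2 h1)
    subst hij
    exact hdisj l' k l hlk' hll.symm hlk.symm i hi (by rw [hSi]; exact hspos.ne')
      (by rw [hSj]; exact hspos.ne')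
  -- the exceptional configuration
  apply hexc
  have hge2 : ∀ l, ∀ i : Fin (E + 1), S l i ≠ 0 → 2 ≤ (i : ℕ) := by
    intro l i hi
    obtain ⟨h1, h2⟩ := hlastS l i hi
    by_contra h3
    exact hi (hone l i (by omega))
  obtain ⟨F, hF⟩ : ∃ F : Fin 3 → Finset (Fin (E + 1)), F = fun l => univ.filter fun i => S l i ≠ 0 :=
    ⟨_, rfl⟩
  have hmemF : ∀ l i, i ∈ F l ↔ S l i ≠ 0 := by
    intro l i
    rw [hF]
    simp
  have hSF : ∀ l i, S l i = if i ∈ F l then s else 0 := by
    intro l i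
    split_ifs with h
    · have h1 := (hmemF l i).mp h
      exact hall l i (hge2 l i h1) h1
    · by_contra h1
      exact h ((hmemF l i).mpr h1)
  have hcardR : ∀ l, ((F l).card : ℝ) * s = 1 := by
    intro l
    rw [← hR1 l]
    have : ∑ i, S l i = ∑ i, if i ∈ F l then s else 0 := Finset.sum_congr rfl fun i _ => hSF l i
    rw [this, Finset.sum_ite_mem, Finset.univ_inter, Finset.sum_const, nsmul_eq_mul]
  have hcard : ∀ l, (F l).card = (F 0).card := by
    intro l
    have h1 := hcardR l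
    have h2 := hcardR 0
    have h3 : ((F l).card : ℝ) = ((F 0).card : ℝ) := by
      apply mul_right_cancel₀ hspos.ne'
      rw [h1, h2]
    exact_mod_cast h3
  obtain ⟨M, hM⟩ : ∃ M : ℕ, M = (F 0).card := ⟨_, rfl⟩
  have hMs : (M : ℝ) * s = 1 := by rw [hM]; exact hcardR 0
  have hM0 : (M : ℝ) ≠ 0 := by
    intro h0
    rw [h0, zero_mul] at hMs
    exact zero_ne_one hMs
  have hsM : s = 1 / (M : ℝ) := by
    field_simp
    linarith
  have hsumF : ∀ l, ∑ i ∈ F l, ((i : ℕ) : ℝ) = M * p.k := by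
    intro l
    rw [← hki l, Finset.mul_sum]
    have : ∀ i : Fin (E + 1), (M : ℝ) * (((i : ℕ) : ℝ) * S l i) =
        if i ∈ F l then ((i : ℕ) : ℝ) else 0 := by
      intro i
      rw [hSF l i]
      split_ifs with h
      · calc (M : ℝ) * (((i : ℕ) : ℝ) * s) = ((i : ℕ) : ℝ) * ((M : ℝ) * s) := by ring
          _ = _ := by rw [hMs, mul_one]
      · rw [mul_zero, mul_zero]
    rw [Finset.sum_congr rfl fun i _ => this i, Finset.sum_ite_mem, Finset.univ_inter]
  have hdF : ∀ l l', l ≠ l' → Disjoint (F l) (F l') := by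
    intro l l' hll
    rw [Finset.disjoint_left]
    intro i h1 h2
    obtain ⟨k, hlk, hlk'⟩ : ∃ k : Fin 3, l ≠ k ∧ l' ≠ k := by
      clear h1 h2
      revert l l'
      decide
    rw [hmemF] at h1 h2
    exact hdisj l l' k hll hlk hlk' i (hge2 l i h1) h1 h2
  have hM1 : M ≠ 1 := by
    intro h1
    have c0 : (F 0).card = 1 := by rw [← hM, h1]
    have c1 : (F 1).card = 1 := by rw [hcard 1, ← hM, h1]
    obtain ⟨i, hi⟩ := Finset.card_eq_one.mp c0
    obtain ⟨j, hj⟩ := Finset.card_eq_one.mp c1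
    have f0 := hsumF 0
    have f1 := hsumF 1
    rw [hi, Finset.sum_singleton] at f0
    rw [hj, Finset.sum_singleton] at f1
    have h2 : ((i : ℕ) : ℝ) = ((j : ℕ) : ℝ) := by rw [f0, f1]
    have h3 : i = j := Fin.ext (by exact_mod_cast h2)
    have h4 := hdF 0 1 (by decide)
    rw [hi, hj, h3] at h4
    simp at h4
  have hMge : 2 ≤ M := by
    have : M ≠ 0 := by
      intro h; apply hM0; rw [h, Nat.cast_zero]
    omega
  refine ⟨M, hMge, F, fun l => by rw [hcard l, hM], ?_, hdF, ?_, hsumF, hyz, ?_⟩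
  · intro l i hi
    have h1 := (hmemF l i).mp hi
    exact ⟨hge2 l i h1, (hlastS l i h1).2⟩
  · intro l i
    rw [hSa, hSF l i, hsM]
  · intro l
    rw [hJa]
    exact hJz l

end Pool.Agent.Lib.FK60
end

section

/-!
Compactness of the set of admissible configurations.
-/

set_option autoImplicit false

open Finset

namespace Pool.Agent.Lib.FK60

variable {E : ℕ}

lemma continuous_S (a : Fin 3 × Fin (E + 1)) : Continuous fun p : BC E => p.S a := by
  unfold BC.S
  fun_prop

lemma continuous_J (a : Fin 3 × Fin (E + 1)) : Continuous fun p : BC E => p.J a := by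
  unfold BC.J
  fun_prop

lemma continuous_y (l : Fin 3) : Continuous fun p : BC E => p.y l := by
  unfold BC.y
  fun_prop

lemma continuous_k : Continuous fun p : BC E => p.k := by
  unfold BC.k
  fun_prop

lemma continuous_cost (t : Tool E) : Continuous t.cost := by
  unfold Tool.cost
  apply Continuous.add
  · apply Continuous.add
    · exact continuous_finset_sum _ fun a _ => continuous_S a
    · exact continuous_finset_sum _ fun i _ => continuous_S _
  · apply Continuous.max continuous_const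
    apply Continuous.sub
    · apply Continuous.sub
      · exact (continuous_finset_sum _ fun a _ => continuous_J a).div_const _
      · exact continuous_finset_sum _ fun i _ => continuous_J _
    · exact continuous_y _

lemma isClosed_Adm (κ K : ℝ) : IsClosed (Adm E κ K) := by
  have h1 : IsClosed {p : BC E | ∀ a, 0 ≤ p.S a} := by
    simp only [Set.setOf_forall]
    exact isClosed_iInter fun a => isClosed_le continuous_const (continuous_S a)
  have h2 : IsClosed {p : BC E | ∀ l, p.S (l, 0) = 0} := by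
    simp only [Set.setOf_forall]
    exact isClosed_iInter fun l => isClosed_eq (continuous_S _) continuous_const
  have h3 : IsClosed {p : BC E | ∀ l, ∀ i : Fin (E + 1), (i : ℕ) < E →
      p.J (l, i) = (i : ℝ) * p.S (l, i)} := by
    simp only [Set.setOf_forall]
    refine isClosed_iInter fun l => isClosed_iInter fun i => isClosed_iInter fun hi => ?_
    exact isClosed_eq (continuous_J _) (continuous_const.mul (continuous_S _))
  have h4 : IsClosed {p : BC E | ∀ l, (E : ℝ) * p.S (l, Fin.last E) ≤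
      p.J (l, Fin.last E)} := by
    simp only [Set.setOf_forall]
    refine isClosed_iInter fun l => ?_
    exact isClosed_le (continuous_const.mul (continuous_S _)) (continuous_J _)
  have h5 : IsClosed {p : BC E | ∀ l, 0 ≤ p.y l} := by
    simp only [Set.setOf_forall]
    exact isClosed_iInter fun l => isClosed_le continuous_const (continuous_y l)
  have h6 : IsClosed {p : BC E | ∀ l, ∑ i, p.J (l, i) + p.y l = p.k} := by
    simp only [Set.setOf_forall]
    refine isClosed_iInter fun l => ?_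
    exact isClosed_eq ((continuous_finset_sum _ fun i _ => continuous_J _).add (continuous_y l))
      continuous_k
  have h7 : IsClosed {p : BC E | ∑ a, p.S a ≤ 3} :=
    isClosed_le (continuous_finset_sum _ fun i _ => continuous_S _) continuous_const
  have h8 : IsClosed {p : BC E | κ ≤ p.k} := isClosed_le continuous_const continuous_k
  have h9 : IsClosed {p : BC E | p.k ≤ K} := isClosed_le continuous_k continuous_const
  exact h1.inter (h2.inter (h3.inter (h4.inter (h5.inter (h6.inter (h7.inter (h8.inter h9)))))))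

lemma bounds_Adm {κ K : ℝ} {p : BC E} (hp : p ∈ Adm E κ K) :
    (∀ a, 0 ≤ p.S a ∧ p.S a ≤ 3) ∧ (∀ a, 0 ≤ p.J a ∧ p.J a ≤ p.k) ∧
      (∀ l, 0 ≤ p.y l ∧ p.y l ≤ p.k) ∧ 0 ≤ p.k ∧ p.k ≤ K := by
  obtain ⟨hS0, hSz, hJ, hJE, hy0, hk, hsum, hκk, hkK⟩ := hp
  have J0 : ∀ l, ∀ i : Fin (E + 1), 0 ≤ p.J (l, i) := by
    intro l i
    by_cases hi : (i : ℕ) < E
    · rw [hJ l i hi]; exact mul_nonneg (by positivity) (hS0 _)
    · have : i = Fin.last E := by
        apply Fin.ext
        have := i.2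
        simp only [Fin.val_last]
        omega
      rw [this]
      exact (mul_nonneg (Nat.cast_nonneg _) (hS0 _)).trans (hJE l)
  have hJs : ∀ l, 0 ≤ ∑ i, p.J (l, i) := fun l => Finset.sum_nonneg fun i _ => J0 l i
  have hyk : ∀ l, p.y l ≤ p.k := fun l => by linarith [hk l, hJs l]
  refine ⟨fun a => ⟨hS0 a, ?_⟩, fun a => ⟨J0 a.1 a.2, ?_⟩, fun l => ⟨hy0 l, hyk l⟩, ?_, hkK⟩
  · exact (Finset.single_le_sum (f := p.S) (fun a _ => hS0 a) (Finset.mem_univ a)).trans hsum
  · have h1 := Finset.single_le_sum (f := fun i => p.J (a.1, i)) (fun i _ => J0 a.1 i)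
      (Finset.mem_univ a.2)
    have h2 := hk a.1
    have h3 := hy0 a.1
    change p.J (a.1, a.2) ≤ p.k
    have h4 : p.J (a.1, a.2) ≤ ∑ i, p.J (a.1, i) := h1
    linarith
  · exact (hy0 0).trans (hyk 0)

lemma isCompact_Adm (κ K : ℝ) : IsCompact (Adm E κ K) := by
  apply Metric.isCompact_of_isClosed_isBounded (isClosed_Adm κ K)
  rw [isBounded_iff_forall_norm_le]
  refine ⟨max 3 K, fun p hp => ?_⟩
  obtain ⟨h1, h2, h3, h4, h5⟩ := bounds_Adm hp
  have hm0 : (0 : ℝ) ≤ max 3 K := le_max_of_le_left (by norm_num)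
  have hkm : p.k ≤ max 3 K := h5.trans (le_max_right _ _)
  rw [Prod.norm_def, Prod.norm_def, Prod.norm_def]
  refine max_le ?_ (max_le ?_ (max_le ?_ ?_))
  · rw [pi_norm_le_iff_of_nonneg hm0]
    intro a
    rw [Real.norm_eq_abs, abs_of_nonneg (h1 a).1]
    exact (h1 a).2.trans (le_max_left _ _)
  · rw [pi_norm_le_iff_of_nonneg hm0]
    intro a
    rw [Real.norm_eq_abs, abs_of_nonneg (h2 a).1]
    exact (h2 a).2.trans hkm
  · rw [pi_norm_le_iff_of_nonneg hm0]
    intro a
    rw [Real.norm_eq_abs, abs_of_nonneg (h3 a).1]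
    exact (h3 a).2.trans hkm
  · rw [Real.norm_eq_abs, abs_of_nonneg h4]
    exact hkm

/-- Uniform version: a uniform gain, or a configuration close to an exceptional one. -/
theorem uniform_cases {κ K : ℝ} (hκ : 1 < κ) (hE : 16 * K ^ 2 + 4 ≤ E) (ε : ℝ) (hε : 0 < ε) :
    ∃ δ : ℝ, 0 < δ ∧ ∀ p ∈ Adm E κ K, (∃ t : Tool E, t.ok ∧ t.cost p ≤ 2 - δ) ∨
      ∃ q ∈ Adm E κ K, Exc E q ∧ dist p q < ε := by
  classical
  set U : {t : Tool E // t.ok} × ℕ → Set (BC E) := fun x =>
    {p | x.1.1.cost p < 2 - 1 / ((x.2 : ℝ) + 1)} with hU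
  set V : Set (BC E) := ⋃ q ∈ {q : BC E | q ∈ Adm E κ K ∧ Exc E q}, Metric.ball q ε with hV
  have hVo : IsOpen V := isOpen_biUnion fun q _ => Metric.isOpen_ball
  have hC : IsCompact (Adm E κ K \ V) := (isCompact_Adm κ K).diff hVo
  have hUo : ∀ x, IsOpen (U x) := fun x => isOpen_lt (continuous_cost _) continuous_const
  have hcov : Adm E κ K \ V ⊆ ⋃ x, U x := by
    rintro p ⟨hp, hpV⟩
    rcases exact_cases hκ hE p hp with ⟨t, ht, hc⟩ | hexc
    · obtain ⟨n, hn⟩ := exists_nat_one_div_lt (sub_pos.mpr hc)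
      rw [Set.mem_iUnion]
      refine ⟨(⟨t, ht⟩, n), ?_⟩
      simp only [hU, Set.mem_setOf_eq]
      linarith
    · exfalso
      apply hpV
      rw [hV, Set.mem_iUnion₂]
      exact ⟨p, ⟨hp, hexc⟩, Metric.mem_ball_self hε⟩
  obtain ⟨s, hs⟩ := hC.elim_finite_subcover U hUo hcov
  obtain ⟨N, hN⟩ : ∃ N : ℕ, N = s.sup Prod.snd := ⟨_, rfl⟩
  refine ⟨1 / ((N : ℝ) + 1), by positivity, fun p hp => ?_⟩
  by_cases hpV : p ∈ V
  · right
    rw [hV, Set.mem_iUnion₂] at hpV
    obtain ⟨q, ⟨hq, hq'⟩, hpq⟩ := hpV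
    exact ⟨q, hq, hq', hpq⟩
  · left
    have h1 := hs ⟨hp, hpV⟩
    rw [Set.mem_iUnion₂] at h1
    obtain ⟨x, hx, hpx⟩ := h1
    refine ⟨x.1.1, x.1.2, ?_⟩
    simp only [hU, Set.mem_setOf_eq] at hpx
    have h2 : x.2 ≤ N := by rw [hN]; exact Finset.le_sup (f := Prod.snd) hx
    have h3 : (x.2 : ℝ) ≤ N := by exact_mod_cast h2
    have h4 : 1 / ((N : ℝ) + 1) ≤ 1 / ((x.2 : ℝ) + 1) := by
      apply one_div_le_one_div_of_le (by positivity)
      linarith
    linarith

end Pool.Agent.Lib.FK60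
end

section

/-!
From block tools to tools for primes.
-/

set_option autoImplicit false

open Finset

namespace Pool.Agent.Lib.FK60

open Pool.Agent.Lib.MP_4d5ce1_nt

variable {ι : Type*} (P : Finset ι) (lab : ι → Fin 3) (e : ι → ℕ) (b : ι → ℝ)

/-- The block of a prime. -/
def blk (lab : ι → Fin 3) (e : ι → ℕ) (E : ℕ) (v : ι) : Fin 3 × Fin (E + 1) :=
  (lab v, ⟨min (e v) E, by omega⟩)

/-- Block sums. -/
noncomputable def bS (E : ℕ) (a : Fin 3 × Fin (E + 1)) : ℝ :=
  ∑ v ∈ P with blk lab e E v = a, b v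

/-- Block sums with multiplicities. -/
noncomputable def bJ (E : ℕ) (a : Fin 3 × Fin (E + 1)) : ℝ :=
  ∑ v ∈ P with blk lab e E v = a, (e v : ℝ) * b v

variable {P lab e b}

lemma sum_bS (E : ℕ) (A : Finset (Fin 3 × Fin (E + 1))) :
    ∑ a ∈ A, bS P lab e b E a = ∑ v ∈ P with blk lab e E v ∈ A, b v := by
  unfold bS
  exact Finset.sum_fiberwise_eq_sum_filter P A (blk lab e E) b

lemma sum_bJ (E : ℕ) (A : Finset (Fin 3 × Fin (E + 1))) :
    ∑ a ∈ A, bJ P lab e b E a = ∑ v ∈ P with blk lab e E v ∈ A, (e v : ℝ) * b v := by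
  unfold bJ
  exact Finset.sum_fiberwise_eq_sum_filter P A (blk lab e E) fun v => (e v : ℝ) * b v

lemma sum_row (E : ℕ) (f : Fin 3 × Fin (E + 1) → ℝ) (k : Fin 3) (T : Finset (Fin (E + 1))) :
    ∑ i ∈ T, f (k, i) = ∑ a ∈ ({k} : Finset (Fin 3)) ×ˢ T, f a := by
  rw [Finset.sum_product, Finset.sum_singleton]

open Classical in
theorem tool_transfer (E : ℕ) {ρ c : ℝ} (hρ : 0 < ρ) (hc : 0 ≤ c) (I : Fin 3 → ℝ) (t : Tool E)
    (ht : t.ok) (p : BC E) (hS : ∀ a, ρ * p.S a = bS P lab e b E a)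
    (hJ : ∀ a, ρ * p.J a = bJ P lab e b E a) (hy : ∀ l, ρ * p.y l ≤ I l + c) :
    HasTool P lab e b I E (ρ * t.cost p + c) := by
  obtain ⟨i, j, hij, hiff⟩ : ∃ i j : Fin 3, i ≠ j ∧ ∀ l, l ≠ t.k ↔ (l = i ∨ l = j) := by
    generalize t.k = k
    revert k
    decide
  have hiff' : ∀ l, (l ≠ i ∧ l ≠ j) ↔ l = t.k := by
    intro l
    have := hiff l
    tauto
  obtain ⟨W, hW⟩ : ∃ W : Finset ι, W = P.filter fun v =>
      blk lab e E v ∈ (univ.filter fun a : Fin 3 × Fin (E + 1) => a.1 ≠ t.k) \ t.A ∨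
      blk lab e E v ∈ ({t.k} : Finset (Fin 3)) ×ˢ t.T := ⟨_, rfl⟩
  have hn1 : 1 ≤ t.n := by unfold Tool.n; omega
  have hnE : t.n ≤ E := by unfold Tool.n; exact t.m.2
  have hlab : ∀ v, (blk lab e E v).1 = lab v := fun v => rfl
  have hAk : ∀ v, blk lab e E v ∈ t.A → lab v ≠ t.k := fun v hv => (ht _ hv).1
  refine ⟨t.n, hn1, hnE, i, j, hij, W, by rw [hW]; exact Finset.filter_subset _ _, ?_, ?_⟩
  · intro v hv hvW hl
    have hlk : lab v ≠ t.k := (hiff _).mpr hl
    have hA : blk lab e E v ∈ t.A := by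
      by_contra h0
      apply hvW
      rw [hW, Finset.mem_filter]
      refine ⟨hv, Or.inl ?_⟩
      rw [Finset.mem_sdiff, Finset.mem_filter]
      exact ⟨⟨Finset.mem_univ _, hlk⟩, h0⟩
    obtain ⟨h1, h2, h3⟩ := ht _ hA
    have h4 : ((blk lab e E v).2 : ℕ) = e v := by
      have h5 : ((blk lab e E v).2 : ℕ) = min (e v) E := rfl
      rw [h5] at h2 ⊢
      omega
    rw [h4] at h3
    exact h3
  · unfold toolCost
    have e1 : ∑ v ∈ W, b v = ρ * (∑ a ∈ (univ.filter fun a : Fin 3 × Fin (E + 1) =>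
        a.1 ≠ t.k) \ t.A, p.S a + ∑ i ∈ t.T, p.S (t.k, i)) := by
      rw [hW, Finset.filter_or, Finset.sum_union, ← sum_bS, ← sum_bS, sum_row E p.S t.k t.T,
        mul_add, Finset.mul_sum, Finset.mul_sum]
      · congr 1
        · exact Finset.sum_congr rfl fun a _ => (hS a).symm
        · exact Finset.sum_congr rfl fun a _ => (hS a).symm
      · rw [Finset.disjoint_left]
        intro v h1 h2
        rw [Finset.mem_filter] at h1 h2
        rw [Finset.mem_sdiff, Finset.mem_filter] at h1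
        rw [Finset.mem_product, Finset.mem_singleton] at h2
        exact h1.2.1.2 h2.2.1
    have e2 : ∑ v ∈ P.filter (fun v => v ∉ W ∧ (lab v = i ∨ lab v = j)), (e v : ℝ) * b v =
        ρ * ∑ a ∈ t.A, p.J a := by
      rw [Finset.mul_sum, Finset.sum_congr rfl fun a _ => hJ a, sum_bJ]
      apply Finset.sum_congr _ fun _ _ => rfl
      ext v
      rw [Finset.mem_filter, Finset.mem_filter]
      constructor
      · rintro ⟨h1, h2, h3⟩
        refine ⟨h1, ?_⟩
        by_contra h0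
        apply h2
        rw [hW, Finset.mem_filter]
        refine ⟨h1, Or.inl ?_⟩
        rw [Finset.mem_sdiff, Finset.mem_filter]
        exact ⟨⟨Finset.mem_univ _, (hiff _).mpr h3⟩, h0⟩
      · rintro ⟨h1, h2⟩
        refine ⟨h1, ?_, (hiff _).mp (hAk v h2)⟩
        intro h3
        rw [hW, Finset.mem_filter] at h3
        rcases h3.2 with h4 | h4
        · exact (Finset.mem_sdiff.mp h4).2 h2
        · rw [Finset.mem_product, Finset.mem_singleton] at h4
          exact hAk v h2 h4.1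
    have e3 : ∑ v ∈ W.filter (fun v => lab v ≠ i ∧ lab v ≠ j), (e v : ℝ) * b v =
        ρ * ∑ i ∈ t.T, p.J (t.k, i) := by
      rw [sum_row E p.J t.k t.T, Finset.mul_sum, Finset.sum_congr rfl fun a _ => hJ a, sum_bJ]
      apply Finset.sum_congr _ fun _ _ => rfl
      ext v
      rw [Finset.mem_filter, Finset.mem_filter, hW, Finset.mem_filter]
      constructor
      · rintro ⟨⟨h1, h2⟩, h3⟩
        refine ⟨h1, ?_⟩
        rcases h2 with h2 | h2
        · rw [Finset.mem_sdiff, Finset.mem_filter] at h2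
          exact absurd ((hiff' _).mp h3) h2.1.2
        · exact h2
      · rintro ⟨h1, h2⟩
        refine ⟨⟨h1, Or.inr h2⟩, ?_⟩
        rw [Finset.mem_product, Finset.mem_singleton] at h2
        exact (hiff' _).mpr h2.1
    have e4 : ∑ l ∈ univ.filter (fun l => l ≠ i ∧ l ≠ j), I l = I t.k := by
      have : (univ.filter fun l : Fin 3 => l ≠ i ∧ l ≠ j) = {t.k} := by
        ext l
        rw [Finset.mem_filter, Finset.mem_singleton]
        exact ⟨fun h => (hiff' l).mp h.2, fun h => ⟨Finset.mem_univ _, (hiff' l).mpr h⟩⟩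
      rw [this, Finset.sum_singleton]
    have hn0 : (0 : ℝ) < t.n := by exact_mod_cast hn1
    rw [e1, e2, e3, e4]
    unfold Tool.cost
    have hm : max 0 (ρ * ∑ a ∈ t.A, p.J a / (t.n : ℝ) - ρ * ∑ i ∈ t.T, p.J (t.k, i) - I t.k) ≤
        ρ * max 0 ((∑ a ∈ t.A, p.J a) / (t.n : ℝ) - ∑ i ∈ t.T, p.J (t.k, i) - p.y t.k) + c := by
      apply max_le
      · have : 0 ≤ ρ * max 0 ((∑ a ∈ t.A, p.J a) / (t.n : ℝ) - ∑ i ∈ t.T, p.J (t.k, i) -
            p.y t.k) := mul_nonneg hρ.le (le_max_left _ _)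
        linarith
      · have h1 : ρ * ((∑ a ∈ t.A, p.J a) / (t.n : ℝ) - ∑ i ∈ t.T, p.J (t.k, i) - p.y t.k) ≤
            ρ * max 0 ((∑ a ∈ t.A, p.J a) / (t.n : ℝ) - ∑ i ∈ t.T, p.J (t.k, i) -
            p.y t.k) := mul_le_mul_of_nonneg_left (le_max_right _ _) hρ.le
        have h2 := hy t.k
        rw [← Finset.sum_div]
        linarith
    have hm' : max 0 (ρ * (∑ a ∈ t.A, p.J a) / (t.n : ℝ) - ρ * ∑ i ∈ t.T, p.J (t.k, i) - I t.k) ≤
        ρ * max 0 ((∑ a ∈ t.A, p.J a) / (t.n : ℝ) - ∑ i ∈ t.T, p.J (t.k, i) - p.y t.k) + c := by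
      rw [← Finset.sum_div] at hm
      rw [mul_div_assoc]
      exact hm
    linarith

end Pool.Agent.Lib.FK60
end

section

/-!
The combinatorial theorem for primes.
-/

set_option autoImplicit false

open Finset

namespace Pool.Agent.Lib.FK60

open Pool.Agent.Lib.MP_4d5ce1_nt

/-- Distinct integers `≥ 2`, at least six of them, have average at least `9/2`. -/
lemma nine_half (U : Finset ℕ) (h2 : ∀ x ∈ U, 2 ≤ x) (h6 : 6 ≤ U.card) :
    9 * (U.card : ℝ) ≤ 2 * ∑ x ∈ U, (x : ℝ) := by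
  have h1 : ∑ x ∈ U, (2 * (x : ℤ) - 15) ≥ -36 := by
    have h3 : ∑ x ∈ U, (2 * (x : ℤ) - 15) ≥ ∑ x ∈ U.filter (fun x => x ≤ 7), (2 * (x : ℤ) - 15) := by
      rw [← Finset.sum_filter_add_sum_filter_not U (fun x => x ≤ 7)]
      have : 0 ≤ ∑ x ∈ U.filter (fun x => ¬ x ≤ 7), (2 * (x : ℤ) - 15) := by
        apply Finset.sum_nonneg
        intro x hx
        rw [Finset.mem_filter] at hx
        have := hx.2
        omega
      linarith
    have h4 : ∑ x ∈ U.filter (fun x => x ≤ 7), (2 * (x : ℤ) - 15) ≥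
        ∑ x ∈ Finset.Icc (2 : ℕ) 7, (2 * (x : ℤ) - 15) := by
      have hsub : U.filter (fun x => x ≤ 7) ⊆ Finset.Icc 2 7 := by
        intro x hx
        rw [Finset.mem_filter] at hx
        exact Finset.mem_Icc.mpr ⟨h2 x hx.1, hx.2⟩
      rw [← Finset.sum_sdiff hsub]
      have : ∑ x ∈ Finset.Icc (2 : ℕ) 7 \ U.filter (fun x => x ≤ 7), (2 * (x : ℤ) - 15) ≤ 0 := by
        apply Finset.sum_nonpos
        intro x hx
        have := (Finset.mem_Icc.mp (Finset.mem_sdiff.mp hx).1).2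
        omega
      linarith
    have h5 : ∑ x ∈ Finset.Icc (2 : ℕ) 7, (2 * (x : ℤ) - 15) = -36 := by decide
    linarith
  have h7 : ∑ x ∈ U, (2 * (x : ℤ) - 15) = 2 * ∑ x ∈ U, (x : ℤ) - 15 * U.card := by
    rw [Finset.sum_sub_distrib, ← Finset.mul_sum, Finset.sum_const, nsmul_eq_mul]
    ring
  have h8 : (6 : ℤ) ≤ U.card := by exact_mod_cast h6
  have h9 : 9 * (U.card : ℤ) ≤ 2 * ∑ x ∈ U, (x : ℤ) := by
    rw [h7] at h1
    linarith
  have h10 : ((9 * (U.card : ℤ) : ℤ) : ℝ) ≤ ((2 * ∑ x ∈ U, (x : ℤ) : ℤ) : ℝ) := by exact_mod_cast h9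
  push_cast at h10
  exact h10

/-- Exceptional configurations have height at least `9/2`. -/
lemma exc_k {E : ℕ} {p : BC E} (h : Exc E p) : 9 / 2 ≤ p.k := by
  classical
  obtain ⟨M, hM, F, hcard, hF, hdis, -, hsum, -, -⟩ := h
  obtain ⟨U, hU⟩ : ∃ U : Finset ℕ, U = (F 0 ∪ (F 1 ∪ F 2)).image (fun i : Fin (E + 1) => (i : ℕ)) :=
    ⟨_, rfl⟩
  have hd12 : Disjoint (F 1) (F 2) := hdis 1 2 (by decide)
  have hd0 : Disjoint (F 0) (F 1 ∪ F 2) :=
    Finset.disjoint_union_right.mpr ⟨hdis 0 1 (by decide), hdis 0 2 (by decide)⟩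
  have hUc : U.card = 3 * M := by
    rw [hU, Finset.card_image_of_injective _ Fin.val_injective, Finset.card_union_of_disjoint hd0,
      Finset.card_union_of_disjoint hd12, hcard, hcard, hcard]
    omega
  have hUs : ∑ x ∈ U, (x : ℝ) = 3 * (M * p.k) := by
    rw [hU, Finset.sum_image (fun a _ b _ hab => Fin.val_injective hab), Finset.sum_union hd0,
      Finset.sum_union hd12, hsum, hsum, hsum]
    ring
  have hU2 : ∀ x ∈ U, 2 ≤ x := by
    intro x hx
    rw [hU, Finset.mem_image] at hx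
    obtain ⟨i, hi, rfl⟩ := hx
    rw [Finset.mem_union, Finset.mem_union] at hi
    rcases hi with hi | hi | hi
    · exact (hF 0 i hi).1
    · exact (hF 1 i hi).1
    · exact (hF 2 i hi).1
  have h1 := nine_half U hU2 (by omega)
  rw [hUs, hUc] at h1
  push_cast at h1
  have hM0 : (0 : ℝ) < M := by
    have : 0 < M := by omega
    exact_mod_cast this
  have h2 : (M : ℝ) * 27 ≤ M * (6 * p.k) := by linarith
  have h3 := le_of_mul_le_mul_left h2 hM0
  linarith

variable {ι : Type*}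

open Classical in
/-- The combinatorial theorem. -/
theorem combi_cases {E : ℕ} {κ K : ℝ} (hκ : 1 < κ) (hE : 16 * K ^ 2 + 4 ≤ E) (ε : ℝ)
    (hε : 0 < ε) : ∃ δ : ℝ, 0 < δ ∧ ∀ (P : Finset ι) (lab : ι → Fin 3) (e : ι → ℕ) (b : ι → ℝ)
      (I : Fin 3 → ℝ) (ρ h c : ℝ), 0 < ρ → 0 ≤ c → (∀ v ∈ P, 1 ≤ e v ∧ 0 ≤ b v) →
      (∀ l, 0 ≤ I l) → (∀ l, |∑ v ∈ P with lab v = l, (e v : ℝ) * b v + I l - h| ≤ c) →
      ∑ v ∈ P, b v ≤ 3 * ρ → κ * ρ ≤ h → h + c ≤ K * ρ →
      HasTool P lab e b I E ((2 - δ) * ρ + 2 * c) ∨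
      ∃ q ∈ Adm E κ K, Exc E q ∧ (∀ a, |bS P lab e b E a - ρ * q.S a| < ε * ρ) ∧
        (∀ a, |bJ P lab e b E a - ρ * q.J a| < ε * ρ) ∧ ∀ l, I l < ε * ρ := by
  obtain ⟨δ, hδ, hun⟩ := uniform_cases (E := E) hκ hE ε hε
  refine ⟨δ, hδ, ?_⟩
  intro P lab e b I ρ h c hρ hc hP hI hh hsum hκh hKh
  have hE1 : 1 ≤ E := by
    have h1 : (4 : ℝ) ≤ E := by nlinarith
    have h2 : (1 : ℝ) ≤ E := by linarith
    exact_mod_cast h2
  obtain ⟨Sg, hSg⟩ : ∃ Sg : Fin 3 → ℝ, Sg = fun l => ∑ v ∈ P with lab v = l, (e v : ℝ) * b v :=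
    ⟨_, rfl⟩
  have hSg : ∀ l, ∑ v ∈ P with lab v = l, (e v : ℝ) * b v = Sg l := fun l => by rw [hSg]
  simp only [hSg] at hh
  obtain ⟨p, hp⟩ : ∃ p : BC E, p = (fun a => bS P lab e b E a / ρ, fun a => bJ P lab e b E a / ρ,
    fun l => (h + c - Sg l) / ρ, (h + c) / ρ) := ⟨_, rfl⟩
  have pS : ∀ a, p.S a = bS P lab e b E a / ρ := fun a => by rw [hp]
  have pJ : ∀ a, p.J a = bJ P lab e b E a / ρ := fun a => by rw [hp]
  have py : ∀ l, p.y l = (h + c - Sg l) / ρ := fun l => by rw [hp]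
  have pk : p.k = (h + c) / ρ := by rw [hp]
  have hblkval : ∀ v, ((blk lab e E v).2 : ℕ) = min (e v) E := fun v => rfl
  have hbJsum : ∀ l, ∑ i, bJ P lab e b E (l, i) = Sg l := by
    intro l
    rw [sum_row E (bJ P lab e b E) l univ, sum_bJ, ← hSg]
    apply Finset.sum_congr _ fun _ _ => rfl
    ext v
    rw [Finset.mem_filter, Finset.mem_filter, Finset.mem_product, Finset.mem_singleton]
    exact ⟨fun hx => ⟨hx.1, hx.2.1⟩, fun hx => ⟨hx.1, hx.2, Finset.mem_univ _⟩⟩
  have hadm : p ∈ Adm E κ K := by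
    refine ⟨?_, ?_, ?_, ?_, ?_, ?_, ?_, ?_, ?_⟩
    · intro a
      rw [pS]
      apply div_nonneg _ hρ.le
      exact Finset.sum_nonneg fun v hv => (hP v (Finset.mem_filter.mp hv).1).2
    · intro l
      rw [pS]
      have : bS P lab e b E (l, 0) = 0 := by
        unfold bS
        apply Finset.sum_eq_zero
        intro v hv
        exfalso
        rw [Finset.mem_filter] at hv
        have h1 := (hP v hv.1).1
        have h2 := congrArg (fun a : Fin 3 × Fin (E + 1) => (a.2 : ℕ)) hv.2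
        simp only [hblkval, Fin.val_zero] at h2
        omega
      rw [this, zero_div]
    · intro l i hi
      rw [pS, pJ, mul_div_assoc']
      congr 1
      unfold bS bJ
      rw [Finset.mul_sum]
      apply Finset.sum_congr rfl
      intro v hv
      rw [Finset.mem_filter] at hv
      have h2 := congrArg (fun a : Fin 3 × Fin (E + 1) => (a.2 : ℕ)) hv.2
      simp only [hblkval] at h2
      have h3 : e v = (i : ℕ) := by omega
      rw [h3]
    · intro l
      rw [pS, pJ, mul_div_assoc']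
      apply div_le_div_of_nonneg_right _ hρ.le
      unfold bS bJ
      rw [Finset.mul_sum]
      apply Finset.sum_le_sum
      intro v hv
      rw [Finset.mem_filter] at hv
      have h2 := congrArg (fun a : Fin 3 × Fin (E + 1) => (a.2 : ℕ)) hv.2
      simp only [hblkval, Fin.val_last] at h2
      have h3 : E ≤ e v := by omega
      have h4 : (E : ℝ) ≤ (e v : ℝ) := by exact_mod_cast h3
      exact mul_le_mul_of_nonneg_right h4 (hP v hv.1).2
    · intro l
      rw [py]
      apply div_nonneg _ hρ.le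
      have h1 := (abs_le.mp (hh l)).2
      have h2 := hI l
      linarith
    · intro l
      have : ∑ i, p.J (l, i) = Sg l / ρ := by
        rw [← hbJsum l, Finset.sum_div]
        exact Finset.sum_congr rfl fun i _ => pJ _
      rw [this, py, pk]
      ring
    · have : ∑ a, p.S a = (∑ v ∈ P, b v) / ρ := by
        have h1 : ∑ a, p.S a = (∑ a, bS P lab e b E a) / ρ := by
          rw [Finset.sum_div]
          exact Finset.sum_congr rfl fun a _ => pS a
        rw [h1, sum_bS]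
        congr 1
        apply Finset.sum_congr _ fun _ _ => rfl
        ext v
        rw [Finset.mem_filter]
        exact ⟨fun hx => hx.1, fun hx => ⟨hx, Finset.mem_univ _⟩⟩
      rw [this, div_le_iff₀ hρ]
      exact hsum
    · rw [pk, le_div_iff₀ hρ]
      linarith
    · rw [pk, div_le_iff₀ hρ]
      exact hKh
  rcases hun p hadm with ⟨t, ht, hcost⟩ | ⟨q, hq, hexc, hdist⟩
  · left
    have h1 := tool_transfer (P := P) (lab := lab) (e := e) (b := b) E hρ
      (show 0 ≤ 2 * c by linarith) I t ht p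
      (fun a => by rw [pS]; field_simp) (fun a => by rw [pJ]; field_simp) (fun l => by
        rw [py]
        have h2 := (abs_le.mp (hh l)).1
        have h3 : ρ * ((h + c - Sg l) / ρ) = h + c - Sg l := by field_simp
        rw [h3]
        linarith)
    obtain ⟨n, hn1, hnE, i, j, hij, W, hW, hdvd, hc'⟩ := h1
    refine ⟨n, hn1, hnE, i, j, hij, W, hW, hdvd, hc'.trans ?_⟩
    have h4 : ρ * t.cost p ≤ ρ * (2 - δ) := mul_le_mul_of_nonneg_left hcost hρ.le
    linarith
  · right
    refine ⟨q, hq, hexc, fun a => ?_, fun a => ?_, fun l => ?_⟩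
    · have h1 : |p.S a - q.S a| < ε := by
        have h2 : dist (p.S a) (q.S a) ≤ dist p q :=
          (dist_le_pi_dist p.1 q.1 a).trans (le_max_left _ _)
        rw [Real.dist_eq] at h2
        exact h2.trans_lt hdist
      rw [pS] at h1
      have e1 : bS P lab e b E a - ρ * q.S a = (bS P lab e b E a / ρ - q.S a) * ρ := by
        field_simp
      rw [e1, abs_mul, abs_of_pos hρ]
      exact mul_lt_mul_of_pos_right h1 hρ
    · have h1 : |p.J a - q.J a| < ε := by
        have h2 : dist (p.J a) (q.J a) ≤ dist p q :=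
          (dist_le_pi_dist p.2.1 q.2.1 a).trans ((le_max_left _ _).trans (le_max_right _ _))
        rw [Real.dist_eq] at h2
        exact h2.trans_lt hdist
      rw [pJ] at h1
      have e1 : bJ P lab e b E a - ρ * q.J a = (bJ P lab e b E a / ρ - q.J a) * ρ := by
        field_simp
      rw [e1, abs_mul, abs_of_pos hρ]
      exact mul_lt_mul_of_pos_right h1 hρ
    · have h1 : |p.y l - q.y l| < ε := by
        have h2 : dist (p.y l) (q.y l) ≤ dist p q :=
          (dist_le_pi_dist p.2.2.1 q.2.2.1 l).trans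
            ((le_max_left _ _).trans ((le_max_right _ _).trans (le_max_right _ _)))
        rw [Real.dist_eq] at h2
        exact h2.trans_lt hdist
      obtain ⟨_, _, _, _, _, _, _, _, hy0, _⟩ := hexc
      rw [hy0 l, sub_zero, py] at h1
      have h2 := (abs_lt.mp h1).2
      rw [div_lt_iff₀ hρ] at h2
      have h3 := (abs_le.mp (hh l)).2
      linarith

end Pool.Agent.Lib.FK60
end
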