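import Pool.Agent.Lib.MP_4d5ce1_nt.Combi

/-!
Block configurations of three forms and their tools.
-/

set_option autoImplicit false

open Finset

namespace Pool.Agent.Lib.FK60

/-- Block configurations: `p.1 (l, i)` is the (normalised) weight of the primes of exponent `i`
of the form `l` (of the primes of exponent `≥ E` if `i = E`), `p.2.1 (l, i)` is the same sum with
the exponents as multiplicities, `p.2.2.1 l` is the index of the form `l` at infinity and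
`p.2.2.2` is the height. -/
abbrev BC (E : ℕ) : Type :=
  (Fin 3 × Fin (E + 1) → ℝ) × (Fin 3 × Fin (E + 1) → ℝ) × (Fin 3 → ℝ) × ℝ

/-- Weights. -/
abbrev BC.S {E : ℕ} (p : BC E) : Fin 3 × Fin (E + 1) → ℝ := p.1

/-- Weights with multiplicities. -/
abbrev BC.J {E : ℕ} (p : BC E) : Fin 3 × Fin (E + 1) → ℝ := p.2.1

/-- Index at infinity. -/
abbrev BC.y {E : ℕ} (p : BC E) : Fin 3 → ℝ := p.2.2.1

/-- Height. -/
abbrev BC.k {E : ℕ} (p : BC E) : ℝ := p.2.2.2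

/-- The admissible configurations. -/
def Adm (E : ℕ) (κ K : ℝ) : Set (BC E) :=
  {p | (∀ a, 0 ≤ p.S a) ∧ (∀ l, p.S (l, 0) = 0) ∧ (∀ l, ∀ i : Fin (E + 1), (i : ℕ) < E →
      p.J (l, i) = (i : ℝ) * p.S (l, i)) ∧ (∀ l, (E : ℝ) * p.S (l, Fin.last E) ≤
      p.J (l, Fin.last E)) ∧ (∀ l, 0 ≤ p.y l) ∧ (∀ l, ∑ i, p.J (l, i) + p.y l = p.k) ∧
      ∑ a, p.S a ≤ 3 ∧ κ ≤ p.k ∧ p.k ≤ K}

/-- Tools: the form which is fixed modulo the blocks of `T`, the exponent `n` (minus one), the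
blocks `A` of the other two forms which are left out, and the blocks `T`. -/
structure Tool (E : ℕ) where
  k : Fin 3
  m : Fin E
  A : Finset (Fin 3 × Fin (E + 1))
  T : Finset (Fin (E + 1))

/-- The exponent of the tool. -/
def Tool.n {E : ℕ} (t : Tool E) : ℕ := (t.m : ℕ) + 1

/-- Valid tools. -/
def Tool.ok {E : ℕ} (t : Tool E) : Prop :=
  ∀ a ∈ t.A, a.1 ≠ t.k ∧ (a.2 : ℕ) < E ∧ t.n ∣ (a.2 : ℕ)

/-- The cost of a tool. -/
noncomputable def Tool.cost {E : ℕ} (t : Tool E) (p : BC E) : ℝ :=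
  ∑ a ∈ (univ.filter fun a : Fin 3 × Fin (E + 1) => a.1 ≠ t.k) \ t.A, p.S a +
    ∑ i ∈ t.T, p.S (t.k, i) +
    max 0 ((∑ a ∈ t.A, p.J a) / (t.n : ℝ) - ∑ i ∈ t.T, p.J (t.k, i) - p.y t.k)

/-- The exceptional configurations: all blocks have the same weight `1/M`, the exponents of the
three forms are disjoint sets of `M` integers between `2` and `E - 1`. -/
def Exc (E : ℕ) (p : BC E) : Prop :=
  ∃ M : ℕ, 2 ≤ M ∧ ∃ F : Fin 3 → Finset (Fin (E + 1)), (∀ l, (F l).card = M) ∧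
    (∀ l, ∀ i ∈ F l, 2 ≤ (i : ℕ) ∧ (i : ℕ) < E) ∧ (∀ l l', l ≠ l' → Disjoint (F l) (F l')) ∧
    (∀ l, ∀ i, p.S (l, i) = if i ∈ F l then 1 / (M : ℝ) else 0) ∧
    (∀ l, ∑ i ∈ F l, ((i : ℕ) : ℝ) = M * p.k) ∧ (∀ l, p.y l = 0) ∧ ∀ l, p.J (l, Fin.last E) = 0

end Pool.Agent.Lib.FK60
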